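import Pool.Agent.Q2.HB.Count
import Pool.Agent.Q2.HB.Aff

/-!
# MP_9530fa_al, Q1 (negated form)

Let `p = n ^ 2 + 1` be a prime with `n ≥ 16` (for instance `p = 257` or `p = 65537`).  Let `H` be
the group of all maps `x ↦ u x + b` of `𝔽_p` with `u ^ n = 1`, let `q > p` be a prime, let
`V = 𝔽_q ^ p` be the permutation module of `H`, let `Q = V × V × 𝔽_q` be the Heisenberg group, and
let `G` be the semidirect product of `Q` and `H`, where `H` acts on both copies of `V` and trivially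
on the centre.  The Schroedinger representation of `Q` extends to a faithful irreducible
representation of `G` of degree `q ^ p`.  Its block `B` is faithful with nontrivial defect groups,
`F(G) ≤ Q`, and `k(B) ≤ k(H) ≤ n + (p - 1) / n = 2 n = 2 √(p - 1) < p / log_2 p`.

Blocks are defined through central characters modulo the maximal ideal of a valuation subring `O`
of `ℂ` whose maximal ideal contains `p` (in `Pool.Agent.H254R3.IN.Defs`).
-/

set_option autoImplicit false

namespace Pool.Agent.Results.MP_9530fa_al.HeisenbergBlock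

open Pool.Agent.H254R3.IN Q2.HB Q2.HB.HG

/-- The Fitting subgroup of a finite group: the subgroup generated by all nilpotent normal
subgroups. -/
def Fitting (G : Type) [Group G] : Subgroup G :=
  sSup {N : Subgroup G | N.Normal ∧ Group.IsNilpotent N}

/-- The block `B` is faithful: the intersection of the kernels of its irreducible characters is
trivial. -/
def IsFaithful {G : Type} [Group G] (B : Set (G → ℂ)) : Prop :=
  ∀ g : G, (∀ χ ∈ B, χ g = χ 1) → g = 1

/-- The block `B` has positive defect: it has defect groups, and they are nontrivial. -/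
def HasPositiveDefect (p : ℕ) (O : ValuationSubring ℂ) {G : Type} [Group G]
    (B : Set (G → ℂ)) : Prop :=
  (∃ D : Subgroup G, IsDefectGroup p O B D) ∧ ∀ D : Subgroup G, IsDefectGroup p O B D → D ≠ ⊥

/-- There are places `O` of `ℂ` over `p`, and for each of them there are a finite group `G` with
`p ∣ |G : F(G)|` and a faithful `p`-block `B` of `G` of positive defect with
`k(B) ≤ N < p / log_2 p`. -/
def FailsAt (p N : ℕ) : Prop :=
  (∃ O : ValuationSubring ℂ, (p : ℂ) ∈ O.nonunits) ∧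
  ∀ O : ValuationSubring ℂ, (p : ℂ) ∈ O.nonunits →
    ∃ (G : Type) (_ : Group G) (_ : Finite G) (B : Set (G → ℂ)),
      p ∣ (Fitting G).index ∧ IsBlock O B ∧ IsFaithful B ∧ HasPositiveDefect p O B ∧
      B.Finite ∧ Nat.card B ≤ N ∧ (N : ℝ) < p / Real.logb 2 p

/-- Valuation subrings `O` as in the theorem exist for every prime `p`. -/
theorem exists_place (p : ℕ) [hp : Fact p.Prime] :
    ∃ O : ValuationSubring ℂ, (p : ℂ) ∈ O.nonunits := by
  let A : Subring ℂ := (Int.castRingHom ℂ).range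
  have hpA : (p : ℂ) ∈ A := ⟨(p : ℤ), by simp⟩
  let I : Ideal A := Ideal.span {⟨(p : ℂ), hpA⟩}
  have hI : I ≠ ⊤ := by
    intro h
    have h1 : (1 : A) ∈ I := by rw [h]; trivial
    obtain ⟨⟨_, n, rfl⟩, hn⟩ := Ideal.mem_span_singleton'.mp h1
    have h2 := congrArg Subtype.val hn
    have h3 : (n : ℂ) * (p : ℂ) = 1 := h2
    have h4 : n * (p : ℤ) = 1 := by exact_mod_cast h3
    have h5 : (p : ℤ) ∣ 1 := ⟨n, by rw [mul_comm]; exact h4.symm⟩
    exact hp.out.one_lt.ne' (by exact_mod_cast Int.eq_one_of_dvd_one (by positivity) h5)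
  obtain ⟨B, -, hB⟩ := I.image_subset_nonunits_valuationSubring hI
  exact ⟨B, hB ⟨_, Ideal.subset_span rfl, rfl⟩⟩

/-- The construction for a prime `p` and a divisor `m` of `p - 1`. -/
theorem construction (p m : ℕ) [hp : Fact p.Prime] (hm : m ∣ p - 1) (O : ValuationSubring ℂ)
    (hO : (p : ℂ) ∈ O.nonunits) :
    ∃ (G : Type) (_ : Group G) (_ : Finite G) (B : Set (G → ℂ)),
      p ∣ (Fitting G).index ∧ IsBlock O B ∧ IsFaithful B ∧ HasPositiveDefect p O B ∧
      B.Finite ∧ Nat.card B ≤ m + (p - 1) / m := by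
  classical
  have hp1 := hp.out.one_lt
  have hcu : Nat.card (ZMod p)ˣ = p - 1 := by
    rw [Nat.card_eq_fintype_card, ZMod.card_units]
  obtain ⟨M, hM⟩ := exists_subgroup (ZMod p)ˣ m (by rw [hcu]; exact hm)
  have hm0 : 0 < m := by rw [← hM]; exact Nat.card_pos
  have hmp : m < p := lt_of_le_of_lt (Nat.le_of_dvd (by omega) hm) (by omega)
  obtain ⟨q, hqp, hq⟩ := Nat.exists_infinite_primes (p + 1)
  have hqf : Fact q.Prime := ⟨hq⟩
  have hpq : p ≠ q := by omega
  let G := HG (ZMod p) (Aff M) q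
  have hFG : Fintype G := Fintype.ofFinite G
  let ψ : AddChar (ZMod q) ℂ := ZMod.stdAddChar
  have hψ : Function.Injective ψ := ZMod.injective_stdAddChar
  have hcard : Nat.card (Aff M) = p * m := by rw [Aff.card_eq, hM]
  have hH : ∀ h : Aff M, (orderOf h : ZMod q) ≠ 0 := by
    intro h h0
    rw [ZMod.natCast_eq_zero_iff] at h0
    have h1 : q ∣ p * m := by
      rw [← hcard]; exact h0.trans (orderOf_dvd_natCard h)
    rcases hq.dvd_mul.1 h1 with h2 | h2
    · have := Nat.le_of_dvd (by omega) h2; omega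
    · have := Nat.le_of_dvd hm0 h2; omega
  let B : Set (G → ℂ) := {χ | IsIrr χ ∧
    ∀ x : G, omega χ x - omega (chi0 (ZMod p) (Aff M) ψ) x ∈ O.nonunits}
  have hB : IsBlock O B := ⟨chi0 (ZMod p) (Aff M) ψ, chi0_irr ψ hψ, rfl⟩
  have h0B : chi0 (ZMod p) (Aff M) ψ ∈ B :=
    ⟨chi0_irr ψ hψ, fun x => by rw [sub_self]; exact O.nonunits.zero_mem⟩
  have hsurj : Function.Surjective (pr : G →* Aff M) := fun h => ⟨emb h, rfl⟩
  have hind : (pr : G →* Aff M).ker.index = p * m := by
    rw [Subgroup.index_ker, MonoidHom.range_eq_top.2 hsurj, Subgroup.card_top, hcard]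
  have hpG : p ∣ Nat.card G := by
    have h1 : (pr : G →* Aff M).ker.index ∣ Nat.card G := Subgroup.index_dvd_card _
    rw [hind] at h1
    exact (dvd_mul_right p m).trans h1
  refine ⟨G, inferInstance, inferInstance, B, ?_, hB, ?_, ?_, ?_, ?_⟩
  · have h1 : Fitting G ≤ (pr : G →* Aff M).ker := by
      refine sSup_le ?_
      rintro N ⟨hN1, hN2⟩
      exact nilp_le hH N hN1 hN2
    have h2 := Subgroup.index_dvd_of_le h1
    rw [hind] at h2
    exact (dvd_mul_right p m).trans h2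
  · intro g hg
    exact chi0_faithful ψ hψ g (hg _ h0B)
  · refine ⟨exists_defect p hB, fun D hD => ?_⟩
    refine defect_ne_bot p hO hB D hD _ h0B _ (chi0_one ψ) ?_ hpG
    intro h1
    exact hpq ((Nat.prime_dvd_prime_iff_eq hp.out hq).1 (hp.out.dvd_of_dvd_pow h1))
  · refine Set.Finite.subset (Finset.finite_toSet (Pool.Agent.Helper884.IC.Irr G)) ?_
    intro χ hχ
    exact mem_Irr.2 hχ.1
  · have h1 := card_le ψ hψ hH B (fun χ hχ => ⟨hχ.1, fun g z =>
      block_trans ψ hψ p hpq O hO χ hχ.1 hχ.2 g z⟩)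
    have h2 := Aff.class_number (M := M)
    have h3 : Nat.card ((ZMod p)ˣ ⧸ M) = (p - 1) / m := by
      have h4 := Subgroup.card_eq_card_quotient_mul_card_subgroup M
      rw [hcu, hM] at h4
      rw [h4]
      exact (Nat.mul_div_cancel _ hm0).symm
    rw [hM, h3] at h2
    exact h1.trans h2

set_option exponentiation.threshold 600 in
/-- elementary inequality -/
theorem pow_ineq (n : ℕ) (hn : 16 ≤ n) : (n ^ 2 + 1) ^ (2 * n) < 2 ^ (n ^ 2 + 1) := by
  rcases hn.eq_or_lt with rfl | hn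
  · norm_num
  · have h1 : (n ^ 2 + 1) ^ 2 < 2 ^ n := by
      induction n, (show 17 ≤ n from hn) using Nat.le_induction with
      | base => norm_num
      | succ n hn' ih =>
        have ih' := ih (by omega) (by omega)
        have h2 : ((n + 1) ^ 2 + 1) ^ 2 ≤ 2 * (n ^ 2 + 1) ^ 2 := by
          have h3 : 17 * n ≤ n ^ 2 := by nlinarith
          have h4 : ((n + 1) ^ 2 + 1) * 8 ≤ (n ^ 2 + 1) * 10 := by nlinarith
          nlinarith
        calc ((n + 1) ^ 2 + 1) ^ 2 ≤ 2 * (n ^ 2 + 1) ^ 2 := h2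
          _ < 2 * 2 ^ n := by omega
          _ = 2 ^ (n + 1) := by ring
    calc (n ^ 2 + 1) ^ (2 * n) = ((n ^ 2 + 1) ^ 2) ^ n := by rw [pow_mul]
      _ ≤ (2 ^ n) ^ n := Nat.pow_le_pow_left h1.le n
      _ = 2 ^ (n ^ 2) := by rw [← pow_mul, sq]
      _ < 2 ^ (n ^ 2 + 1) := Nat.pow_lt_pow_right (by norm_num) (by omega)

theorem real_ineq (n : ℕ) (hn : 16 ≤ n) :
    ((2 * n : ℕ) : ℝ) < ((n ^ 2 + 1 : ℕ) : ℝ) / Real.logb 2 ((n ^ 2 + 1 : ℕ) : ℝ) := by
  have h1 : (1 : ℝ) < ((n ^ 2 + 1 : ℕ) : ℝ) := by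
    exact_mod_cast (by nlinarith : 1 < n ^ 2 + 1)
  have h2 : 0 < Real.logb 2 ((n ^ 2 + 1 : ℕ) : ℝ) := Real.logb_pos (by norm_num) h1
  rw [lt_div_iff₀ h2, ← Real.logb_pow, Real.logb_lt_iff_lt_rpow (by norm_num) (by positivity),
    Real.rpow_natCast]
  exact_mod_cast pow_ineq n hn

/-- **Q1, negated form.**  For every prime `p` of the form `n ^ 2 + 1` with `n ≥ 16` there are a
finite group `G` with `p ∣ |G : F(G)|` and a faithful `p`-block `B` of `G` of positive defect with
`k(B) ≤ 2 n = 2 √(p - 1) < p / log_2 p`; and `65537 = 256 ^ 2 + 1` is such a prime. -/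
theorem result :
    (∀ n : ℕ, 16 ≤ n → (n ^ 2 + 1).Prime → FailsAt (n ^ 2 + 1) (2 * n)) ∧
      (256 ^ 2 + 1).Prime := by
  refine ⟨?_, by norm_num⟩
  intro n hn hp
  have hpf : Fact (n ^ 2 + 1).Prime := ⟨hp⟩
  refine ⟨exists_place _, fun O hO => ?_⟩
  obtain ⟨G, i1, i2, B, h1, h2, h3, h4, h5, h6⟩ := construction (n ^ 2 + 1) n
    ⟨n, by rw [Nat.add_sub_cancel, sq]⟩ O hO
  refine ⟨G, i1, i2, B, h1, h2, h3, h4, h5, ?_, real_ineq n hn⟩
  have h7 : (n ^ 2 + 1 - 1) / n = n := by
    rw [Nat.add_sub_cancel, sq, Nat.mul_div_cancel _ (by omega)]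
  rw [h7] at h6
  omega

end Pool.Agent.Results.MP_9530fa_al.HeisenbergBlock
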